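import Pool.Agent.L0h31.GT.Fin
import Pool.Agent.L0h78.GT.OPK
import Pool.Agent.L0h10.GT.CHN
import Pool.Agent.L0h24.GT.FUB
import Pool.Agent.L0h56.GT.BOX
import Pool.Agent.L0h24.GT.DINT
import Pool.Agent.L0h10.GT.BIAL
import Pool.Agent.L0h53.GT.ROW
import Pool.Agent.L0h34.GT.REC
import Pool.Agent.L0h62.GT.VOL
import Pool.Agent.L0h10.GT.GEO

/-!
# Gelfand-Tsetlin polytopes: Poincaré constant, variance, and the KLS conjecture (Cheeger form)

For `l 0 < l 1 < … < l m` the Gelfand-Tsetlin polytope `GT(l)` is the set of the triangular arrays with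
rows of length `m, m - 1, …, 1`, each row interlacing the row above it and the first one interlacing
`l`. Its uniform measure is the law of the eigenvalues of the minors of a random Hermitian matrix
with the eigenvalues `l i` (Baryshnikov; not used here).

(1) All order cones intersected with boxes (in particular the Gelfand-Tsetlin polytopes and, more
generally, all marked order polytopes) in a cube of side `L` satisfy Poincaré's inequality with the
constant `L² / π²`, the one of the cube.
(2) The sum of all entries of a uniform random pattern has exactly the variance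
`(1/12) ∑_{i < j} (l i - l j)²`.
(3) So `GT(l)` satisfies the inequality of Kannan, Lovász and Simonovits with the constant
`c σ / (l m - l 0)`, where `σ²` is the mean of `(l i - l j)²` over the pairs `i < j` and `c` is absolute.
For equally spaced `l i` this is an absolute constant.

Method. (1) The inequality for order polytopes is in the starting library and in `TwoSatPolytopes`
(path coupling). A mark `b` is the limit of the element with the number `⌈N b⌉` of a chain of length
`N`, by the law of large numbers for order statistics, and Poincaré's inequality passes to marginals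
and limits. (2) Recursion over the rows: the volume is the Vandermonde determinant divided by
factorials, the moments `∫ Δ(μ) s(μ) dμ` over the rows `μ` interlacing `l`, for the Schur polynomials
`s` of degree at most two, are multiples of `Δ(l) s(l)` (alternants and Fubini). (3) From Poincaré's
to Cheeger's inequality and from halfspaces to variances by the starting library.

Modules by helpers 10 (BIAL, CHN, GEO), 24 (DINT, FUB), 34 (REC), 53 (ROW), 56 (BOX), 62 (VOL),
78 (OPK) and 31.
-/

set_option autoImplicit false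

namespace Pool.Agent.Results.MP_8d00da_gt.GelfandTsetlin

open MeasureTheory Set
open scoped ENNReal InnerProductSpace

/-- Euclidean space with the coordinates `κ` -/
abbrev Euc (κ : Type) [Fintype κ] : Type := EuclideanSpace ℝ κ

/-- the uniform probability measure on `K` -/
noncomputable def unif {κ : Type} [Fintype κ] (K : Set (Euc κ)) : Measure (Euc κ) :=
  (volume K)⁻¹ • volume.restrict K

/-- Minkowski (exterior) boundary measure `μ⁺(A)` -/
noncomputable def bdry {κ : Type} [Fintype κ] (μ : Measure (Euc κ)) (A : Set (Euc κ)) : ℝ≥0∞ :=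
  Filter.liminf (fun ε : ℝ => (μ (Metric.thickening ε A) - μ A) / ENNReal.ofReal ε)
    (nhdsWithin 0 (Set.Ioi 0))

/-- the halfspace `⟪u, x⟫ ≤ b` -/
def halfspace {κ : Type} [Fintype κ] (u : Euc κ) (b : ℝ) : Set (Euc κ) := {x | inner ℝ u x ≤ b}

/-- the inequality of Kannan, Lovasz and Simonovits with constant `c` for the uniform measure `μ` on
`K`: if `t min(μ H, 1 - μ H) ≤ μ⁺(H)` for all halfspaces `H` then
`c t min(μ A, 1 - μ A) ≤ μ⁺(A)` for all measurable `A` -/
def KLS {κ : Type} [Fintype κ] (c : ℝ) (K : Set (Euc κ)) : Prop :=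
  ∀ t : ℝ≥0∞, (∀ (u : Euc κ) (b : ℝ), u ≠ 0 →
      t * min (unif K (halfspace u b)) (1 - unif K (halfspace u b)) ≤
        bdry (unif K) (halfspace u b)) →
    ∀ A : Set (Euc κ), MeasurableSet A →
      ENNReal.ofReal c * t * min (unif K A) (1 - unif K A) ≤ bdry (unif K) A

/-- the order constraints `x i ≤ x j` for `R i j`, and the box `a i ≤ x i ≤ b i` -/
def orderBox {κ : Type} [Fintype κ] (R : κ → κ → Prop) (a b : κ → ℝ) : Set (Euc κ) :=
  {x | (∀ i, a i ≤ x i ∧ x i ≤ b i) ∧ ∀ i j, R i j → x i ≤ x j}

/-- the positions in a triangular array with rows of length `m, m - 1, …, 1`: `Pos 0` is empty and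
`Pos (m + 1)` is the disjoint union of `Pos m` and the top row `Fin (m + 1)` -/
abbrev Pos (m : ℕ) : Type := Pool.Agent.L0h31.GT.Tri m

/-- the Gelfand-Tsetlin polytope of `l`: the arrays whose top row `μ` interlaces `l`,
`l j ≤ μ j ≤ l (j + 1)`, and whose other rows form an element of the polytope of `μ` (recursive
definition of `Pool.Agent.L0h31.GT.GTp`) -/
def GT {m : ℕ} (l : Fin (m + 1) → ℝ) : Set (Euc (Pos m)) :=
  {x | (fun t => x t) ∈ Pool.Agent.L0h31.GT.GTp m l}

/-- the mean of `(l i - l j)²` over the pairs `i < j` -/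
noncomputable def meanSq {m : ℕ} (l : Fin (m + 1) → ℝ) : ℝ :=
  ((∑ i, ∑ j, (l i - l j) ^ 2) / 2) / (m * (m + 1) / 2)

/-- the length of the shortest interval which contains all `l i` -/
noncomputable def range {m : ℕ} (l : Fin (m + 1) → ℝ) : ℝ := l (Fin.last m) - l 0

theorem kls_mono {κ : Type} [Fintype κ] {c c' : ℝ} (h : c ≤ c') {K : Set (Euc κ)} (hK : KLS c' K) :
    KLS c K := by
  intro t ht A hA
  refine le_trans ?_ (hK t ht A hA)
  gcongr

theorem sum_one (m : ℕ) : ∑ i ∈ Finset.range (m + 1), (i : ℝ) = m * (m + 1) / 2 := by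
  induction m with
  | zero => simp
  | succ m ih =>
    rw [Finset.sum_range_succ, ih]
    push_cast
    ring

theorem sum_two (m : ℕ) :
    ∑ i ∈ Finset.range (m + 1), (i : ℝ) ^ 2 = m * (m + 1) * (2 * m + 1) / 6 := by
  induction m with
  | zero => simp
  | succ m ih =>
    rw [Finset.sum_range_succ, ih]
    push_cast
    ring

theorem ap (m : ℕ) (a d : ℝ) (hm : 1 ≤ m) :
    meanSq (fun i : Fin (m + 1) => a + i * d) = (m + 1) * (m + 2) / 6 * d ^ 2 := by
  have hm' : (1 : ℝ) ≤ m := by exact_mod_cast hm
  have h := Pool.Agent.L0h31.GT.pairs_eq (fun i : Fin (m + 1) => a + i * d)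
  unfold Pool.Agent.L0h31.GT.pairs Pool.Agent.L0h31.GT.p1 Pool.Agent.L0h31.GT.p2 at h
  have e1 : ∑ i : Fin (m + 1), (a + (i : ℕ) * d) = (m + 1) * a + m * (m + 1) / 2 * d := by
    rw [Finset.sum_add_distrib, ← Finset.sum_mul, Fin.sum_univ_eq_sum_range (fun i => (i : ℝ)),
      sum_one]
    simp
  have e2 : ∑ i : Fin (m + 1), (a + (i : ℕ) * d) ^ 2 =
      (m + 1) * a ^ 2 + 2 * a * d * (m * (m + 1) / 2) + m * (m + 1) * (2 * m + 1) / 6 * d ^ 2 := by
    have e3 : ∀ i : Fin (m + 1), (a + ((i : ℕ) : ℝ) * d) ^ 2 =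
        a ^ 2 + 2 * a * d * ((i : ℕ) : ℝ) + ((i : ℕ) : ℝ) ^ 2 * d ^ 2 := fun i => by ring
    simp only [e3]
    rw [Finset.sum_add_distrib, Finset.sum_add_distrib, ← Finset.mul_sum, ← Finset.sum_mul,
      Fin.sum_univ_eq_sum_range (fun i => (i : ℝ)), Fin.sum_univ_eq_sum_range (fun i => (i : ℝ) ^ 2),
      sum_one, sum_two]
    simp
  unfold meanSq
  rw [h, e1, e2]
  field_simp
  ring

section

open Pool.Agent.L0h31.GT

theorem scl : S_SCL := Pool.Agent.L0h56.GT.t_SCL
  (Pool.Agent.L0h56.GT.t_BOX Pool.Agent.L0h78.GT.t_OPK Pool.Agent.L0h10.GT.t_CHN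
    Pool.Agent.L0h24.GT.t_FUB)

theorem vol : S_VOL := Pool.Agent.L0h62.GT.t_VOL
  (Pool.Agent.L0h53.GT.t_ROW Pool.Agent.L0h10.GT.t_BIAL Pool.Agent.L0h24.GT.t_DINT)
  Pool.Agent.L0h34.GT.t_REC

theorem geo : S_GEO := Pool.Agent.L0h10.GT.t_GEO

end

/-- (1) **Poincaré's inequality for order cones cut by boxes**: if the box lies in `[A, B]^κ` and the
polytope has interior points, `Var f ≤ ((B - A)² / π²) E |∇f|²` for all `C¹` functions `f`.
(2) **Gelfand-Tsetlin polytopes**: for an absolute constant `c > 0`, all `m ≥ 1` and all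
`l 0 < … < l m`, the polytope is a convex body, it satisfies the inequality of Kannan, Lovász and
Simonovits with the constant `c (meanSq l)^(1/2) / range l`, Cheeger's inequality with the constant
`π / (8 range l)`, and the variance of the sum of all entries is `(1/12) ∑_{i < j} (l i - l j)²`.
(3) For equally spaced `l i` the KLS constant is absolute. -/
theorem result :
    (∀ (κ : Type) [Fintype κ] (R : κ → κ → Prop) (a b : κ → ℝ) (A B : ℝ), A < B →
      (∀ i, A ≤ a i ∧ b i ≤ B) → (interior (orderBox R a b)).Nonempty →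
      ∀ f : Euc κ → ℝ, ContDiff ℝ 1 f →
        ProbabilityTheory.variance f (unif (orderBox R a b)) ≤
          (B - A) ^ 2 / Real.pi ^ 2 * ∫ x, ‖fderiv ℝ f x‖ ^ 2 ∂(unif (orderBox R a b))) ∧
    ∃ c : ℝ, 0 < c ∧
      (∀ (m : ℕ) (l : Fin (m + 1) → ℝ), 1 ≤ m → StrictMono l →
        (IsCompact (GT l) ∧ Convex ℝ (GT l) ∧ (interior (GT l)).Nonempty) ∧
        KLS (c * Real.sqrt (meanSq l) / range l) (GT l) ∧
        (∀ A : Set (Euc (Pos m)), MeasurableSet A → ENNReal.ofReal (Real.pi / (8 * range l)) *
          min (unif (GT l) A) (1 - unif (GT l) A) ≤ bdry (unif (GT l)) A) ∧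
        ProbabilityTheory.variance (fun x : Euc (Pos m) => ∑ t, x t) (unif (GT l)) =
          (1 / 12) * ((∑ i, ∑ j, (l i - l j) ^ 2) / 2)) ∧
      ∀ (m : ℕ) (a d : ℝ), 1 ≤ m → 0 < d → KLS c (GT (m := m) fun i => a + i * d) := by
  classical
  have hpi : 0 < Real.pi := Real.pi_pos
  refine ⟨?_, ?_⟩
  · intro κ _ R a b A B hAB hab hi f hf
    have hP := scl κ R a b A B hAB hab
    have hKE : orderBox R a b = Pool.Agent.L0h31.GT.KE (Pool.Agent.L0h31.GT.OB R a b) := rfl
    have hc : IsCompact (orderBox R a b) := by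
      rw [hKE]
      exact Pool.Agent.L0h31.GT.KE_compact (Pool.Agent.L0h24.GT.isCompact_OB R a b)
    have hv := Pool.Agent.L0h31.GT.vpos hi
    have hvK := (Pool.Agent.L0h31.GT.tre (Pool.Agent.L0h31.GT.OB R a b)).1
    have h1 := Pool.Agent.L0h31.GT.poie hP (by rw [← hvK]; exact hv.ne')
      (Pool.Agent.L0h24.GT.isCompact_OB R a b).measure_lt_top.ne f hf
    have h2 := Pool.Agent.L0h31.GT.var_eq hc hv f hf.continuous
    have h3 := Pool.Agent.L0h31.GT.un_int (orderBox R a b) fun x => ‖fderiv ℝ f x‖ ^ 2
    calc ProbabilityTheory.variance f (unif (orderBox R a b)) = _ := h2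
      _ ≤ _ := h1
      _ = _ := congrArg (fun z => (B - A) ^ 2 / Real.pi ^ 2 * z) h3.symm
  · obtain ⟨c, hc, H⟩ := Pool.Agent.L0h31.GT.asm
    have main : ∀ (m : ℕ) (l : Fin (m + 1) → ℝ), 1 ≤ m → StrictMono l →
        (IsCompact (GT l) ∧ Convex ℝ (GT l) ∧ (interior (GT l)).Nonempty) ∧
        KLS (c * Real.pi / 4 * Real.sqrt (meanSq l) / range l) (GT l) ∧
        (∀ A : Set (Euc (Pos m)), MeasurableSet A → ENNReal.ofReal (Real.pi / (8 * range l)) *
          min (unif (GT l) A) (1 - unif (GT l) A) ≤ bdry (unif (GT l)) A) ∧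
        ProbabilityTheory.variance (fun x : Euc (Pos m) => ∑ t, x t) (unif (GT l)) =
          (1 / 12) * ((∑ i, ∑ j, (l i - l j) ^ 2) / 2) := by
      intro m l hm hl
      obtain ⟨hgc, hgco, -, hgi⟩ := geo m l hl.monotone
      have hKE : GT l = Pool.Agent.L0h31.GT.KE (Pool.Agent.L0h31.GT.GTp m l) := rfl
      have hcp : IsCompact (GT l) := Pool.Agent.L0h31.GT.KE_compact hgc
      have hco : Convex ℝ (GT l) := Pool.Agent.L0h31.GT.KE_convex hgco
      have hin : (interior (GT l)).Nonempty := Pool.Agent.L0h31.GT.KE_interior (hgi hl)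
      have hv := Pool.Agent.L0h31.GT.vpos hin
      have hr : 0 < range l := by
        unfold range
        have h0 : (0 : Fin (m + 1)) < Fin.last m := by
          rw [Fin.lt_def]
          simp
          omega
        exact sub_pos.2 (hl h0)
      have hm' : (1 : ℝ) ≤ m := by exact_mod_cast hm
      have hms : 0 < meanSq l := by
        unfold meanSq
        exact div_pos (Pool.Agent.L0h31.GT.pairs_pos hm hl) (by positivity)
      have hC : 0 < range l ^ 2 / Real.pi ^ 2 := by positivity
      have hsC : Real.sqrt (range l ^ 2 / Real.pi ^ 2) = range l / Real.pi := by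
        rw [Real.sqrt_div (by positivity), Real.sqrt_sq hr.le, Real.sqrt_sq hpi.le]
      have hPoi := Pool.Agent.L0h31.GT.poig scl geo hm hl
      refine ⟨⟨hcp, hco, hin⟩, ?_, ?_, ?_⟩
      · intro t ht A hA
        refine le_trans ?_ (H (Pos m) (GT l) hcp hco hin (range l ^ 2 / Real.pi ^ 2)
          (1 / 12 * meanSq l) hC (by positivity) hPoi (Pool.Agent.L0h31.GT.dir vol hm hl) t
          (fun θ b hθ => ht θ b ?_) A hA)
        · refine mul_le_mul' (mul_le_mul' (ENNReal.ofReal_le_ofReal ?_) le_rfl) le_rfl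
          rw [Real.sqrt_div (by positivity), hsC, Real.sqrt_mul (by norm_num : (0 : ℝ) ≤ 1 / 12)]
          have h12 : (1 / 4 : ℝ) ≤ Real.sqrt (1 / 12) := by
            rw [show (1 / 4 : ℝ) = Real.sqrt ((1 / 4) ^ 2) by
              rw [Real.sqrt_sq (by norm_num)]]
            exact Real.sqrt_le_sqrt (by norm_num)
          have hs : 0 ≤ Real.sqrt (meanSq l) := Real.sqrt_nonneg _
          have e1 : c * Real.pi / 4 * Real.sqrt (meanSq l) / range l =
              (c * Real.pi / range l * Real.sqrt (meanSq l)) * (1 / 4) := by ring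
          have e2 : c * (Real.sqrt (1 / 12) * Real.sqrt (meanSq l) / (range l / Real.pi)) =
              (c * Real.pi / range l * Real.sqrt (meanSq l)) * Real.sqrt (1 / 12) := by
            field_simp
          rw [e1, e2]
          exact mul_le_mul_of_nonneg_left h12 (by positivity)
        · rintro rfl
          rw [norm_zero] at hθ
          exact zero_ne_one hθ
      · intro A hA
        have h1 := Pool.Agent.L0h31.GT.sets (GT l) hcp hco hin _ hC hPoi A hA
        rw [hsC] at h1
        have e : Real.pi / (8 * range l) = 1 / (8 * (range l / Real.pi)) := by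
          field_simp
        rw [e]
        exact h1
      · have h1 := Pool.Agent.L0h31.GT.var_eq hcp hv (fun x : Euc (Pos m) => ∑ t, x t)
          (by fun_prop)
        exact h1.trans (Pool.Agent.L0h31.GT.VV_sum vol hl)
    refine ⟨c * Real.pi / 12, by positivity, fun m l hm hl => ?_, fun m a d hm hd => ?_⟩
    · obtain ⟨h1, h2, h3, h4⟩ := main m l hm hl
      refine ⟨h1, kls_mono ?_ h2, h3, h4⟩
      have hr : 0 ≤ range l := by
        unfold range
        exact sub_nonneg.2 (hl.monotone (Fin.zero_le _))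
      gcongr
      norm_num
    · set l : Fin (m + 1) → ℝ := fun i => a + i * d with hl
      have hlm : StrictMono l := by
        intro i j hij
        have : ((i : ℕ) : ℝ) < (j : ℕ) := by exact_mod_cast hij
        simp only [hl]
        nlinarith
      obtain ⟨-, h2, -, -⟩ := main m l hm hlm
      refine kls_mono ?_ h2
      have hm' : (1 : ℝ) ≤ m := by exact_mod_cast hm
      have hr : range l = m * d := by
        unfold range
        simp only [hl, Fin.val_last, Fin.val_zero]
        push_cast
        ring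
      have hms : meanSq l = (m + 1) * (m + 2) / 6 * d ^ 2 := ap m a d hm
      rw [hr, hms]
      have h5 : m * d / 3 ≤ Real.sqrt ((m + 1) * (m + 2) / 6 * d ^ 2) := by
        apply Real.le_sqrt_of_sq_le
        have : (m : ℝ) ^ 2 * d ^ 2 / 9 ≤ (m + 1) * (m + 2) / 6 * d ^ 2 := by
          have h6 : (m : ℝ) ^ 2 / 9 ≤ (m + 1) * (m + 2) / 6 := by nlinarith
          have := mul_le_mul_of_nonneg_right h6 (sq_nonneg d)
          linarith
        nlinarith
      rw [le_div_iff₀ (by positivity)]
      nlinarith [mul_le_mul_of_nonneg_left h5 (show 0 ≤ c * Real.pi / 4 by positivity)]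

end Pool.Agent.Results.MP_8d00da_gt.GelfandTsetlin
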