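import Pool.Agent.L0h31.KE.Body

/-!
# KLS (Cheeger form) for the positive semidefinite matrices with given diagonal blocks

Q1, for sets `A` of measure one half, for the following convex bodies. Let `S` be a positive
definite `n × n` matrix which is block diagonal, with `k` blocks `S_1, …, S_k` of any sizes, in any
positions (`β i` is the block of the index `i`). The body `K` is the set of all positive
semidefinite symmetric `n × n` matrices with the diagonal blocks `S_1, …, S_k`; the off-diagonal
blocks are free, and `ι` gives any linear coordinates for them. The constant does not depend on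
`n`, `k`, the sizes of the blocks, `S` and the coordinates. Examples:

* all blocks of size one, `S = 1`: the correlation matrices (the elliptope, the feasible set of the
  semidefinite relaxation of the maximal cut problem), of dimension `n (n - 1) / 2`;
* two blocks: the unit ball of the operator norm of rectangular matrices, in any coordinates (this
  case is known);
* `S = 1`, `k` blocks of size `m`: the Gram matrices of `k` orthonormal `m`-frames in `ℝ^{km}`.

For three or more blocks these bodies are neither symmetric nor invariant under a large group; the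
symmetries of the elliptope are the signed permutations of the indices.

The second part of the theorem gives weak Poincare inequalities, with a profile `A` which does not
depend on the body, for all linear images of these bodies.

Method. (1) Let `x_1, …, x_n` be independent and uniform in the unit ball of `ℝ^{n+1}`. The Gram
matrix has the density one on the set of the positive semidefinite matrices with diagonal at most
`1`, so if `R` is the positive square root of its block diagonal part, `R⁻¹ G R⁻¹` is uniform on
`K_1`, the set for `S = 1`, and independent of `R`; it is the Gram matrix of the vectors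
`u_j = ∑ (R⁻¹)_{ij} x_i`, so the blocks `(u_j)_{β j = a}` are independent. (2) Hence the Efron-Stein
inequality `Var f ≤ ∑_a E (f - E(f | X_{ij}, i, j ∉ a))²` holds on `K_1`. (3) Given the `X_{ij}`,
`i, j ∉ a`, that is, given a matrix `Y`, the remaining block is uniform on
`{C | C Y⁻¹ Cᵀ ≤ 1}`, a linear image of the unit ball of the operator norm. By the KLS theorem for
`O(m)`-invariant log-concave measures on matrices (starting library) the Poincare constant is at most
`C ‖Y‖ / n`, so `Var f ≤ (C / n) E ‖X‖ ‖∇ f(X)‖²` on `K_1`, with the operator norm `‖X‖`. (4)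
`E ‖X‖ ≤ C`: by Jensen's inequality `(E R) X (E R) ≤ E R X R`, where `E R` is a diagonal matrix with
entries at least `c`, and the Gram matrix of independent vectors in the unit ball has mean operator
norm at most `C`. (5) The covariance matrix of the uniform measure on `K_1` is `1 / (n + 1)` times the
identity. So a linear image with variances at most `s` is given by a linear map of norm at most
`√(s (n + 1))`, and Lipschitz functions are concentrated: `Var v(T x) ≤ C κ²` if `‖∇ v‖ ≤ κ / √s`. (6)
Concentration implies the isoperimetric inequality (starting library).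
-/

set_option autoImplicit false

namespace Pool.Agent.Results.MP_8d00da_gt.MatrixCompletions

open MeasureTheory Set
open scoped ENNReal InnerProductSpace

/-- Euclidean space of dimension `n` -/
abbrev Euc (n : ℕ) : Type := EuclideanSpace ℝ (Fin n)

/-- the uniform probability measure on `K` -/
noncomputable def unif {n : ℕ} (K : Set (Euc n)) : Measure (Euc n) :=
  (volume K)⁻¹ • volume.restrict K

/-- Minkowski (exterior) boundary measure `μ⁺(A)` -/
noncomputable def bdry {n : ℕ} (μ : Measure (Euc n)) (A : Set (Euc n)) : ℝ≥0∞ :=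
  Filter.liminf (fun ε : ℝ => (μ (Metric.thickening ε A) - μ A) / ENNReal.ofReal ε)
    (nhdsWithin 0 (Set.Ioi 0))

/-- the halfspace `⟪u, x⟫ ≤ b` -/
def halfspace {n : ℕ} (u : Euc n) (b : ℝ) : Set (Euc n) := {x | inner ℝ u x ≤ b}

/-- the inequality of Kannan, Lovasz and Simonovits with constant `c` for the uniform measure `μ` on
`K` and sets of measure one half: if `t min(μ H, 1 - μ H) ≤ μ⁺(H)` for all halfspaces `H` then
`c t min(μ A, 1 - μ A) ≤ μ⁺(A)` for all measurable `A` with `μ A = 1/2` -/
def KLSHalf {n : ℕ} (c : ℝ) (K : Set (Euc n)) : Prop :=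
  ∀ t : ℝ≥0∞, (∀ (u : Euc n) (b : ℝ), u ≠ 0 →
      t * min (unif K (halfspace u b)) (1 - unif K (halfspace u b)) ≤
        bdry (unif K) (halfspace u b)) →
    ∀ A : Set (Euc n), MeasurableSet A → unif K A = 1 / 2 →
      ENNReal.ofReal c * t * min (unif K A) (1 - unif K A) ≤ bdry (unif K) A

/-- The inequalities `Var v(P x) ≤ δ + A(δ) s E ‖∇ v(P x)‖²` for all `δ > 0`, all linear images `P x` of
`x` (of law `μ`), all bounds `s` for the variances of the marginals of `P x` in directions of length
one, and all `C¹` functions `v` with `|v| ≤ 1` and bounded gradient. -/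
def WeakPoincare (A : ℝ → ℝ) {M : ℕ} (μ : Measure (Euc M)) : Prop :=
  ∀ δ : ℝ, 0 < δ → ∀ (k : ℕ) (P : Euc M →ₗ[ℝ] Euc k) (s : ℝ), 0 < s →
  (∀ θ : Euc k, ‖θ‖ = 1 → ProbabilityTheory.variance (fun x => ⟪P x, θ⟫_ℝ) μ ≤ s) →
  ∀ (v : Euc k → ℝ) (C : ℝ), ContDiff ℝ 1 v → (∀ y, |v y| ≤ 1) → (∀ y, ‖fderiv ℝ v y‖ ≤ C) →
  ProbabilityTheory.variance (fun x => v (P x)) μ ≤ δ + A δ * s * ∫ x, ‖fderiv ℝ v (P x)‖ ^ 2 ∂μ

/-- block diagonal matrices; `β i` is the block of the index `i` -/
def BlockDiagonal {n k : ℕ} (β : Fin n → Fin k) (S : Matrix (Fin n) (Fin n) ℝ) : Prop :=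
  ∀ i j, β i ≠ β j → S i j = 0

/-- `ι` gives linear coordinates `x ∈ ℝ^N` for the space of the symmetric matrices with diagonal
blocks zero -/
structure Coordinates {n k N : ℕ} (β : Fin n → Fin k)
    (ι : Euc N →ₗ[ℝ] Matrix (Fin n) (Fin n) ℝ) : Prop where
  inj : Function.Injective ι
  range : ∀ X : Matrix (Fin n) (Fin n) ℝ,
    (∃ x, ι x = X) ↔ X.IsSymm ∧ ∀ i j, β i = β j → X i j = 0

/-- the positive semidefinite matrices with the same diagonal blocks as `S`, in the coordinates `ι`
of the off-diagonal part -/
def completions {n N : ℕ} (S : Matrix (Fin n) (Fin n) ℝ)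
    (ι : Euc N →ₗ[ℝ] Matrix (Fin n) (Fin n) ℝ) : Set (Euc N) := {x | (S + ι x).PosSemidef}

/-- **KLS for positive semidefinite matrices with given diagonal blocks.** There are a constant
`c > 0` and a function `A` such that for all `n`, all partitions `β` of the indices into blocks, all
positive definite block diagonal `n × n` matrices `S` and all linear coordinates `ι` of the
off-diagonal blocks, the set `K` of the positive semidefinite matrices with the diagonal blocks of
`S` is a convex body which satisfies the inequality of Kannan, Lovasz and Simonovits with the constant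
`c` for all sets of measure one half, and the weak Poincare inequalities with the function `A`. -/
theorem result : ∃ (c : ℝ) (A : ℝ → ℝ), 0 < c ∧ ∀ (n k N : ℕ) (β : Fin n → Fin k)
    (S : Matrix (Fin n) (Fin n) ℝ) (ι : Euc N →ₗ[ℝ] Matrix (Fin n) (Fin n) ℝ), S.PosDef →
    BlockDiagonal β S → Coordinates β ι →
    (IsCompact (completions S ι) ∧ Convex ℝ (completions S ι) ∧
      (interior (completions S ι)).Nonempty) ∧
    KLSHalf c (completions S ι) ∧ WeakPoincare A (unif (completions S ι)) := by
  obtain ⟨C, hC, H⟩ := Pool.Agent.L0h31.KE.ccwK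
  -- the class of bodies
  let P : ∀ N : ℕ, Set (Euc N) → Prop := fun N K => ∃ (n k : ℕ) (β : Fin n → Fin k)
    (A : Pool.Agent.L0h31.KE.Eo β ≃ₗ[ℝ] Euc N), A ⁻¹' K = Pool.Agent.L0h31.KE.Kc β
  have hP : ∀ δ : ℝ, 0 < δ → ∃ κ : ℝ, 0 < κ ∧ ∀ (N : ℕ) (K : Set (Euc N)), P N K → IsCompact K ∧
      Convex ℝ K ∧ (interior K).Nonempty ∧
      Pool.Agent.Y506.PV.CcW κ δ (Pool.Agent.Y506.PV.ind K) := by
    intro δ hδ
    refine ⟨Real.sqrt (δ / C), Real.sqrt_pos.2 (by positivity), fun N K hK => ?_⟩
    obtain ⟨n, k, β, A, hA⟩ := hK
    obtain ⟨h1, h2, h3⟩ := Pool.Agent.L0h31.KE.body_of β A hA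
    have h4 := H n (Fin k) β N A K h1.measurableSet
      (hA ▸ Pool.Agent.L0h31.KE.Kc_ae β) (Real.sqrt (δ / C)) (Real.sqrt_pos.2 (by positivity))
    rw [Real.sq_sqrt (by positivity), mul_div_cancel₀ _ hC.ne'] at h4
    exact ⟨h1, h2, h3, h4⟩
  obtain ⟨A, -, hA⟩ := Pool.Agent.R755.KS.km_profile hP
  obtain ⟨κ, hκ, hcc⟩ := hP (1 / 25) (by norm_num)
  obtain ⟨c, hc, hst⟩ := Pool.Agent.Y506.PV.stb Pool.Agent.Y211.PV.iso κ hκ
  obtain ⟨c', hc', hche⟩ := Pool.Agent.Y532.PV.che c hc
  refine ⟨c', A, hc', fun n k N β S ι hS hB hι => ?_⟩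
  have hK : P N (completions S ι) := by
    obtain ⟨E, hE⟩ := Pool.Agent.L0h31.KE.coords β S hS hB ι hι.inj hι.range
    exact ⟨n, k, β, E, hE⟩
  obtain ⟨h1, h2, h3, h4⟩ := hcc N _ hK
  obtain ⟨-, -, -, h5⟩ := hA N _ hK
  have hstar := hst N _ h1 h2 h3 h4
  have hprob : IsProbabilityMeasure (unif (completions S ι)) :=
    Pool.Agent.Y506.KS.unif_prob (Pool.Agent.Y506.PV.vol_pos h3) h1.measure_lt_top.ne
  refine ⟨⟨h1, h2, h3⟩, ?_, ?_⟩
  · intro t ht A hA hA2
    have key := hche N _ h1 h2 h3 hstar (unif (completions S ι)) rfl t ht A hA2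
    refine le_trans ?_ key
    calc ENNReal.ofReal c' * t * min (unif (completions S ι) A) (1 - unif (completions S ι) A)
        ≤ ENNReal.ofReal c' * t * 1 := mul_le_mul_right ((min_le_left _ _).trans prob_le_one) _
      _ = _ := mul_one _
  · obtain ⟨B, hB⟩ := Pool.Agent.R755.KS.un_bdd h1
    exact Pool.Agent.R755.KS.wpf_of_km (μ := unif _) hB h5

end Pool.Agent.Results.MP_8d00da_gt.MatrixCompletions
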