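import Pool.Agent.L0h31.KQ.Coord

/-!
# KLS (Cheeger form) for the extensions of a faithful state: channels, measurements, correlations

Q1, for sets `A` of measure one half, for the following convex bodies. Let `𝒜 ⊂ ℬ` be a unital
inclusion of finite dimensional complex `C*`-algebras and `S` a faithful positive functional (a
positive definite element) on `𝒜`. The body `K` is the set of all positive functionals on `ℬ` which
extend `S`. In matrices: `𝒜` is a direct sum of matrix algebras, realised as the block diagonal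
`n × n` matrices (`a j` is the summand of the index `j`); the inclusion maps `y ∈ 𝒜` to a block
diagonal sum of `m` copies of summands of `y` (`τ c` is the summand of `𝒜` of which `c` is a copy,
`b c` the summand of `ℬ` in which it lies), so `ℬ` consists of matrices with the index set
`{(c, j) | τ c = a j}` which vanish between different summands; and the functional
`z ↦ tr (X z)` on `ℬ`, restricted to `𝒜`, is `y ↦ tr (E(X) y)`, with the partial trace `E`
(`restriction` below). So `K = {X ∈ ℬ | X ≥ 0, E(X) = S}`, in any affine coordinates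
`x ↦ X₀ + ι x` of the affine space of all hermitian `X ∈ ℬ` with `E(X) = S`.

The constant depends only on a number `T ≥ 0` with `∑_i exp(- T N_i) ≤ 1`, `N_i` the sizes of the
summands of `ℬ`. If `ℬ` is a full matrix algebra, `T = 0` is allowed, so the constant is universal for
all `*`-subalgebras `𝒜` of all matrix algebras. Examples:

* `ℬ = M_N`, `𝒜 = M_n ⊗ 1`, `S = 1`: the quantum channels (trace preserving completely positive
  maps) from `M_n` to `M_{N/n}`, as their Choi matrices; for general `S` the states of a bipartite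
  system with a given faithful marginal;
* `ℬ = M_N`, `𝒜` the diagonal matrices, `S = 1`: the complex correlation matrices; `𝒜` block
  diagonal: the positive semidefinite complex matrices with given diagonal blocks;
* `ℬ` a sum of `k` copies of `M_n`, `𝒜 = M_n` (diagonally), `S = 1`: the quantum measurements (POVMs)
  with `k` outcomes in dimension `n`, `k ≤ exp (T n)`;
* `𝒜 = ℂ`: the states of `ℬ` (known for `ℬ = M_N` and for `ℬ = ℂ^N`).

The second part of the theorem gives weak Poincare inequalities for all linear images.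

Method. (1) Gram law: if `G` is a Gaussian element of `ℬ` then `G G*` has on the positive cone of `ℬ`
a density which is a function of the restriction `W = E(G G*)` only. So `X = W^{-1/2} G G* W^{-1/2}` is
uniform on `K_1` (the case `S = 1`) and independent of `W`. (2) `W^{-1/2} G` is a tuple of frames, one
for each summand `a` of `𝒜` (the columns with the label `a` form an isometry with `M_a` columns),
whose law is invariant under the unitary groups `U(M_a)`, acting on the columns. (3) Spectral gap: for
polynomials on frames `f - E f` is bounded by the Casimir operators of these groups, because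
a vector of weight zero of a nontrivial representation is moved by the operators `E_{pq}`. This gives
`Var f(X) ≤ 8 ∑_r E (Y X Y)_{rr} / M_r`, `Y` the gradient. (4) Second and fourth moments of random
frames, with a lower bound for the variance of all quadratic forms: `Var tr(Y X) ≥ c ∑ N_i |Y_{rs}|² /
(M_r M_s)` for all `Y` orthogonal to the constants. (5) The relative size `Z(X)` of `X` with respect to
its mean has a bounded expectation: by Jensen's inequality and independence it is bounded by the
expectation of `Z` for `W^{1/2} X W^{1/2} = G G*`, which is given by nets for the Gaussian matrices, and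
the mean of `W^{1/2}` is at least `√M_a / 2`. (6) So functions which are Lipschitz with respect to the
standard deviation are concentrated, for all linear images. (7) Concentration implies the
isoperimetric inequality (starting library).
-/

set_option autoImplicit false

namespace Pool.Agent.Results.MP_8d00da_gt.StateExtensions

open MeasureTheory Set
open scoped ENNReal InnerProductSpace ComplexOrder

/-- Euclidean space of dimension `n` -/
abbrev Euc (n : ℕ) : Type := EuclideanSpace ℝ (Fin n)

/-- the uniform probability measure on `K` -/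
noncomputable def unif {n : ℕ} (K : Set (Euc n)) : Measure (Euc n) :=
  (volume K)⁻¹ • volume.restrict K

/-- Minkowski (exterior) boundary measure `μ⁺(A)` -/
noncomputable def bdry {n : ℕ} (μ : Measure (Euc n)) (A : Set (Euc n)) : ℝ≥0∞ :=
  Filter.liminf (fun ε : ℝ => (μ (Metric.thickening ε A) - μ A) / ENNReal.ofReal ε)
    (nhdsWithin 0 (Set.Ioi 0))

/-- the halfspace `⟪u, x⟫ ≤ b` -/
def halfspace {n : ℕ} (u : Euc n) (b : ℝ) : Set (Euc n) := {x | inner ℝ u x ≤ b}

/-- the inequality of Kannan, Lovasz and Simonovits with constant `c` for the uniform measure `μ` on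
`K` and sets of measure one half: if `t min(μ H, 1 - μ H) ≤ μ⁺(H)` for all halfspaces `H` then
`c t min(μ A, 1 - μ A) ≤ μ⁺(A)` for all measurable `A` with `μ A = 1/2` -/
def KLSHalf {n : ℕ} (c : ℝ) (K : Set (Euc n)) : Prop :=
  ∀ t : ℝ≥0∞, (∀ (u : Euc n) (b : ℝ), u ≠ 0 →
      t * min (unif K (halfspace u b)) (1 - unif K (halfspace u b)) ≤
        bdry (unif K) (halfspace u b)) →
    ∀ A : Set (Euc n), MeasurableSet A → unif K A = 1 / 2 →
      ENNReal.ofReal c * t * min (unif K A) (1 - unif K A) ≤ bdry (unif K) A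

/-- The inequalities `Var v(P x) ≤ δ + A(δ) s E ‖∇ v(P x)‖²` for all `δ > 0`, all linear images `P x` of
`x` (of law `μ`), all bounds `s` for the variances of the marginals of `P x` in directions of length
one, and all `C¹` functions `v` with `|v| ≤ 1` and bounded gradient. -/
def WeakPoincare (A : ℝ → ℝ) {M : ℕ} (μ : Measure (Euc M)) : Prop :=
  ∀ δ : ℝ, 0 < δ → ∀ (k : ℕ) (P : Euc M →ₗ[ℝ] Euc k) (s : ℝ), 0 < s →
  (∀ θ : Euc k, ‖θ‖ = 1 → ProbabilityTheory.variance (fun x => ⟪P x, θ⟫_ℝ) μ ≤ s) →
  ∀ (v : Euc k → ℝ) (C : ℝ), ContDiff ℝ 1 v → (∀ y, |v y| ≤ 1) → (∀ y, ‖fderiv ℝ v y‖ ≤ C) →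
  ProbabilityTheory.variance (fun x => v (P x)) μ ≤ δ + A δ * s * ∫ x, ‖fderiv ℝ v (P x)‖ ^ 2 ∂μ

section inclusion

variable {n m p q : ℕ}

/-- the index set of the matrices of the big algebra: a copy `c` and an index `j` of the summand
`τ c = a j` of the small algebra -/
abbrev Idx (a : Fin n → Fin p) (τ : Fin m → Fin p) : Type := {r : Fin m × Fin n // τ r.1 = a r.2}

/-- the elements of the big algebra: no entries between the summands; the copy `c` lies in the
summand `b c` -/
def InBig {a : Fin n → Fin p} {τ : Fin m → Fin p} (b : Fin m → Fin q)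
    (X : Matrix (Idx a τ) (Idx a τ) ℂ) : Prop := ∀ r s : Idx a τ, b r.1.1 ≠ b s.1.1 → X r s = 0

/-- the size `N_i` of the summand `i` of the big algebra -/
def size (a : Fin n → Fin p) (τ : Fin m → Fin p) (b : Fin m → Fin q) (i : Fin q) : ℕ :=
  Fintype.card {r : Idx a τ // b r.1.1 = i}

/-- the restriction of the functional `z ↦ tr (X z)` to the small algebra: the partial trace -/
noncomputable def restriction {a : Fin n → Fin p} {τ : Fin m → Fin p}
    (X : Matrix (Idx a τ) (Idx a τ) ℂ) : Matrix (Fin n) (Fin n) ℂ := fun j j' =>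
  ∑ c : Fin m, if h : τ c = a j ∧ τ c = a j' then X ⟨(c, j), h.1⟩ ⟨(c, j'), h.2⟩ else 0

/-- `x ↦ X₀ + ι x` is an affine coordinate system `x ∈ ℝ^N` of the space of all hermitian elements of
the big algebra with the same restriction as `X₀` -/
structure Coordinates {N : ℕ} {a : Fin n → Fin p} {τ : Fin m → Fin p} (b : Fin m → Fin q)
    (X₀ : Matrix (Idx a τ) (Idx a τ) ℂ) (ι : Euc N →ₗ[ℝ] Matrix (Idx a τ) (Idx a τ) ℂ) : Prop where
  inBig : InBig b X₀
  hermitian : X₀.IsHermitian
  inj : Function.Injective ι
  range : ∀ Y : Matrix (Idx a τ) (Idx a τ) ℂ,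
    (∃ x, ι x = Y) ↔ Y.IsHermitian ∧ InBig b Y ∧ restriction Y = 0

/-- the positive extensions of the restriction of `X₀`, in the coordinates given by `ι` -/
def extensions {N : ℕ} {a : Fin n → Fin p} {τ : Fin m → Fin p}
    (X₀ : Matrix (Idx a τ) (Idx a τ) ℂ) (ι : Euc N →ₗ[ℝ] Matrix (Idx a τ) (Idx a τ) ℂ) :
    Set (Euc N) := {x | (X₀ + ι x).PosSemidef}

end inclusion

/-- **KLS for the extensions of a faithful state.** For every `T ≥ 0` there are a constant `c > 0` and a
function `A` such that for all unital inclusions `𝒜 ⊂ ℬ` of finite dimensional `C*`-algebras (given by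
`a`, `τ`, `b`; all summands of `𝒜` occur) with `∑_i exp(- T N_i) ≤ 1`, the sum over the summands of
`ℬ` and `N_i` their sizes, and for all positive definite `S ∈ 𝒜`, the set `K` of all `X ∈ ℬ`, `X ≥ 0`,
with the restriction `S` is a convex body (in any affine coordinates) which satisfies the inequality
of Kannan, Lovasz and Simonovits with the constant `c` for all sets of measure one half, and the weak
Poincare inequalities with the function `A`. -/
theorem result : ∀ T : ℝ, 0 ≤ T → ∃ (c : ℝ) (A : ℝ → ℝ), 0 < c ∧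
    ∀ (n m p q N : ℕ) (a : Fin n → Fin p) (τ : Fin m → Fin p) (b : Fin m → Fin q)
      (X₀ : Matrix (Idx a τ) (Idx a τ) ℂ) (ι : Euc N →ₗ[ℝ] Matrix (Idx a τ) (Idx a τ) ℂ),
    (∀ j, ∃ c, τ c = a j) →
    (∑ i ∈ Finset.univ.image (fun r : Idx a τ => b r.1.1), Real.exp (-(T * size a τ b i)) ≤ 1) →
    Coordinates b X₀ ι → (restriction X₀).PosDef →
    (IsCompact (extensions X₀ ι) ∧ Convex ℝ (extensions X₀ ι) ∧
      (interior (extensions X₀ ι)).Nonempty) ∧
    KLSHalf c (extensions X₀ ι) ∧ WeakPoincare A (unif (extensions X₀ ι)) := by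
  intro T hT
  obtain ⟨K0, hK0, hG⟩ := Pool.Agent.L0h31.KQ.exists_Gbc
  set C : ℝ := (512 * K0 + 2) * (1 + T) with hCdef
  have hC : 0 < C := by positivity
  -- the class of bodies
  let P : ∀ N : ℕ, Set (Euc N) → Prop := fun N K => ∃ (n m p q : ℕ) (a : Fin n → Fin p)
    (τ : Fin m → Fin p) (b : Fin m → Fin q) (hcov : Pool.Agent.L0h31.KQ.Cov a τ)
    (E : (Pool.Agent.L0h31.KQ.DD hcov b).N ≃ₗ[ℝ] Euc N) (w : Euc N),
    (∑ i ∈ Finset.univ.image (Pool.Agent.L0h31.KQ.bR b : Pool.Agent.L0h31.KQ.RR a τ → Fin q),
      Real.exp (-(T * Pool.Agent.L0h31.KQ.Nb a τ b i)) ≤ 1) ∧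
    ∀ x, x ∈ K ↔ E.symm (x + w) ∈ Pool.Agent.L0h31.KQ.Kc hcov b
  have hP : ∀ δ : ℝ, 0 < δ → ∃ κ : ℝ, 0 < κ ∧ ∀ (N : ℕ) (K : Set (Euc N)), P N K → IsCompact K ∧
      Convex ℝ K ∧ (interior K).Nonempty ∧
      Pool.Agent.Y506.PV.CcW κ δ (Pool.Agent.Y506.PV.ind K) := by
    intro δ hδ
    refine ⟨Real.sqrt (δ / C), Real.sqrt_pos.2 (by positivity), fun N K hK => ?_⟩
    obtain ⟨n, m, p, q, a, τ, b, hcov, E, w, hs, hE⟩ := hK
    obtain ⟨h1, h2, h3, h4⟩ := Pool.Agent.L0h31.KQ.fam hcov hK0 hG hT hs E w hE
      (Real.sqrt_pos.2 (by positivity : 0 < δ / C))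
    rw [Real.sq_sqrt (by positivity), ← hCdef, mul_div_cancel₀ _ hC.ne'] at h4
    exact ⟨h1, h2, h3, h4⟩
  obtain ⟨A, -, hA⟩ := Pool.Agent.R755.KS.km_profile hP
  obtain ⟨κ, hκ, hcc⟩ := hP (1 / 25) (by norm_num)
  obtain ⟨c, hc, hst⟩ := Pool.Agent.Y506.PV.stb Pool.Agent.Y211.PV.iso κ hκ
  obtain ⟨c', hc', hche⟩ := Pool.Agent.Y532.PV.che c hc
  refine ⟨c', A, hc', fun n m p q N a τ b X₀ ι hcov hs hι hS => ?_⟩
  have hK : P N (extensions X₀ ι) := by
    obtain ⟨E, w, hE⟩ := Pool.Agent.L0h31.KQ.coordsq (bl := b) hcov X₀ hι.inBig hι.hermitian hS ι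
      hι.inj hι.range
    exact ⟨n, m, p, q, a, τ, b, hcov, E, w, hs, hE⟩
  obtain ⟨h1, h2, h3, h4⟩ := hcc N _ hK
  obtain ⟨-, -, -, h5⟩ := hA N _ hK
  have hstar := hst N _ h1 h2 h3 h4
  have hprob : IsProbabilityMeasure (unif (extensions X₀ ι)) :=
    Pool.Agent.Y506.KS.unif_prob (Pool.Agent.Y506.PV.vol_pos h3) h1.measure_lt_top.ne
  refine ⟨⟨h1, h2, h3⟩, ?_, ?_⟩
  · intro t ht A hA hA2
    have key := hche N _ h1 h2 h3 hstar (unif (extensions X₀ ι)) rfl t ht A hA2
    refine le_trans ?_ key
    calc ENNReal.ofReal c' * t * min (unif (extensions X₀ ι) A) (1 - unif (extensions X₀ ι) A)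
        ≤ ENNReal.ofReal c' * t * 1 := mul_le_mul_right ((min_le_left _ _).trans prob_le_one) _
      _ = _ := mul_one _
  · obtain ⟨B, hB⟩ := Pool.Agent.R755.KS.un_bdd h1
    exact Pool.Agent.R755.KS.wpf_of_km (μ := unif _) hB h5

end Pool.Agent.Results.MP_8d00da_gt.StateExtensions
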