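import Pool.Agent.L0h99.SO.Fin

/-!
# The KLS conjecture (Cheeger form) for the relaxations of 2-CNF formulas

Q1 for all convex bodies cut out of the cube `[0,1]ⁿ` by hyperplanes of the form `x_i = x_j`,
`x_i + x_j = 1` and `x_i = 1/2`, in arbitrary number and combination and in the position in which they
are given: `D_Che(λ_K) ≥ c D_Che^Lin(λ_K)` with an absolute constant `c`. These are the linear
relaxations `{x ∈ [0,1]ⁿ | x_a + x_b ≥ 1 for all clauses a ∨ b}` of the 2-CNF formulas, where the
literal `a` is a coordinate `x_i` or `1 - x_i`, for instance the fractional stable set polytopes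
`{x ∈ [0,1]ⁿ | x_i + x_j ≤ 1 for all edges ij}` of all graphs, their duals, and the order polytopes; in
the coordinates `y = 2 x - 1` they are all the convex unions of the simplices into which the cube
`[-1,1]ⁿ` is divided by the hyperplanes of the Coxeter group of type `B_n`. More precisely
`π/8 ≤ D_Che(λ_K)`, and `D_Poin(λ_K)² ≤ 1/π²`, which is the value for the whole cube.

Method. (1) A path coupling for lattice placements of signed labels. The states are the placements of
the labels `±1, ..., ±n` on the positions `0, ..., 2N - 1`, symmetric under `x ↦ 2N - 1 - x`, which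
respect the implications of the formula; the moves are the simple reflections of the group of signed
permutations, and the metric is generated by all the reflections (exchanges of two signed labels, and
changes of the sign of one label), with the cost `W_j - W_i`, `W_k = - cos (π (k + 1/2) / 2N)`. A
simple move which leads towards the other one of two states which differ by a reflection is never
forbidden by the implications, the moves which are forbidden in one state and allowed in the other one
lead outwards, and all the displacements add up to the Neumann eigenvalue of the path. So the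
spectral gap is at least the one of one particle on the path of `2N` positions. (2) The limit
`N → ∞`: the placements are decomposed by the pattern of the signs, the change of the sign at the
centre costs no energy in the limit. (3) Functions which are symmetric and even with respect to the
centre have the same mean over all these bodies, which gives the mean and the variance of `‖2x-1‖²`,
and with Poincare's inequality a direction with variance at least `1/300`; the halfspace constant
bounds the variances (module `Y211.FF` of the starting files). (4) From Poincare's to Cheeger's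
inequality (modules `W695.KH`, `R310.OP2` of the starting files).

The case of order polytopes (all clauses of the form `¬i ∨ j`) is the theorem `OrderPolytopes` of the
starting files, some of whose modules (`R972.OP` and others) are used here.
-/

set_option autoImplicit false

namespace Pool.Agent.Results.MP_8d00da_gt.TwoSatPolytopes

open MeasureTheory Set
open scoped ENNReal InnerProductSpace

/-- Euclidean space of dimension `n` -/
abbrev Euc (n : ℕ) : Type := EuclideanSpace ℝ (Fin n)

/-- the literals of `n` variables: `(i, true)` is the variable `i`, `(i, false)` its negation -/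
abbrev Literal (n : ℕ) : Type := Fin n × Bool

/-- the value of a literal at the point `x`: `x_i` for the variable `i`, `1 - x_i` for its negation -/
noncomputable def value {n : ℕ} (x : Euc n) (a : Literal n) : ℝ := if a.2 then x a.1 else 1 - x a.1

/-- the linear relaxation of the 2-CNF formula with the clauses `a ∨ b`, `C a b`: the points
`x ∈ [0,1]ⁿ` at which the values of `a` and `b` add up to at least one for all clauses -/
def relaxation {n : ℕ} (C : Literal n → Literal n → Prop) : Set (Euc n) :=
  {x | (∀ i, 0 ≤ x i ∧ x i ≤ 1) ∧ ∀ a b, C a b → 1 ≤ value x a + value x b}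

/-- the uniform probability measure on `K` -/
noncomputable def unif {n : ℕ} (K : Set (Euc n)) : Measure (Euc n) :=
  (volume K)⁻¹ • volume.restrict K

/-- Minkowski (exterior) boundary measure `μ⁺(A)` -/
noncomputable def bdry {n : ℕ} (μ : Measure (Euc n)) (A : Set (Euc n)) : ℝ≥0∞ :=
  Filter.liminf (fun ε : ℝ => (μ (Metric.thickening ε A) - μ A) / ENNReal.ofReal ε)
    (nhdsWithin 0 (Set.Ioi 0))

/-- the halfspace `⟪u, x⟫ ≤ b` -/
def halfspace {n : ℕ} (u : Euc n) (b : ℝ) : Set (Euc n) := {x | inner ℝ u x ≤ b}

/-- the inequality of Kannan, Lovasz and Simonovits with constant `c` for the uniform measure `μ` on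
`K`: if `t min(μ H, 1 - μ H) ≤ μ⁺(H)` for all halfspaces `H` then
`c t min(μ A, 1 - μ A) ≤ μ⁺(A)` for all measurable `A` -/
def KLS {n : ℕ} (c : ℝ) (K : Set (Euc n)) : Prop :=
  ∀ t : ℝ≥0∞, (∀ (u : Euc n) (b : ℝ), u ≠ 0 →
      t * min (unif K (halfspace u b)) (1 - unif K (halfspace u b)) ≤
        bdry (unif K) (halfspace u b)) →
    ∀ A : Set (Euc n), MeasurableSet A →
      ENNReal.ofReal c * t * min (unif K A) (1 - unif K A) ≤ bdry (unif K) A

/-- **KLS (Cheeger form) for the relaxations of 2-CNF formulas.** There is an absolute constant `c > 0`
such that for all `n ≥ 1` and all 2-CNF formulas `C` in `n` variables whose relaxation `K` has interior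
points, `K` is a convex body which satisfies the inequality of Kannan, Lovasz and Simonovits with
constant `c`, for all measurable sets. More precisely, for the uniform measure `μ` on `K`,
`π/8 min(μ A, 1 - μ A) ≤ μ⁺(A)` for all measurable `A`, Poincare's inequality holds with the constant
`1/π²`, which is the one of the cube, and some linear functional of norm one has variance more than
`1/300`. -/
theorem result : ∃ c : ℝ, 0 < c ∧ ∀ (n : ℕ) (C : Literal n → Literal n → Prop), 1 ≤ n →
    (interior (relaxation C)).Nonempty →
    (IsCompact (relaxation C) ∧ Convex ℝ (relaxation C)) ∧ KLS c (relaxation C) ∧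
    (∀ A : Set (Euc n), MeasurableSet A → ENNReal.ofReal (Real.pi / 8) *
      min (unif (relaxation C) A) (1 - unif (relaxation C) A) ≤ bdry (unif (relaxation C)) A) ∧
    (∀ f : Euc n → ℝ, ContDiff ℝ 1 f → ProbabilityTheory.variance f (unif (relaxation C)) ≤
      1 / Real.pi ^ 2 * ∫ x, ‖fderiv ℝ f x‖ ^ 2 ∂(unif (relaxation C))) ∧
    ∃ u : Euc n, ‖u‖ = 1 ∧
      1 / 300 < ProbabilityTheory.variance (fun x => ⟪u, x⟫_ℝ) (unif (relaxation C)) := by
  obtain ⟨c, hc, H⟩ := Pool.Agent.L0h99.SO.half_t
  refine ⟨c, hc, fun n C hn hi => ?_⟩
  have hcp := Pool.Agent.L0h99.SO.TE_compact C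
  have hco := Pool.Agent.L0h99.SO.TE_convex C
  have hv := Pool.Agent.R972.OP.vpos hi
  refine ⟨⟨hcp, hco⟩, ?_, ?_, ?_, ?_⟩
  · intro t ht A hA
    refine H n C hn hi t (fun θ b hθ => ?_) A hA
    refine ht θ b ?_
    rintro rfl
    rw [norm_zero] at hθ
    exact zero_ne_one hθ
  · intro A hA
    exact Pool.Agent.L0h99.SO.sets_t C hi A hA
  · intro f hf
    exact Pool.Agent.L0h99.SO.poi_un C hi f hf
  · by_contra hcon
    push Not at hcon
    refine lt_irrefl _ (Pool.Agent.L0h99.SO.low C hn hv (1 / 300) fun θ hθ => ?_)
    have h1 := hcon θ hθ
    rw [← Pool.Agent.R972.OP.var_eq hcp hv (fun x => ⟪θ, x⟫_ℝ) (by fun_prop)]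
    exact h1

end Pool.Agent.Results.MP_8d00da_gt.TwoSatPolytopes
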